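import Mathlib
import Pool.Agent.Lib.MP_1dbcb3_an.Construction

open MeasureTheory Set Pool.Agent.Lib.MP_1dbcb3_an
open scoped ENNReal

namespace Pool.Agent.Results.MP_1dbcb3_an.SummableCounterexample

/-- The nonlocal functional `F_ω(u,(a,b))`: the double Lebesgue integral over the square `(a,b)²` of
`ω(|u(y)-u(x)|/|y-x|) / |y-x|`, with values in `[0,∞]` (the diagonal is a null set, so the
convention for division by zero plays no role). -/
noncomputable def nonlocalF (ω u : ℝ → ℝ) (a b : ℝ) : ℝ≥0∞ :=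
  ∫⁻ p in (Ioo a b) ×ˢ (Ioo a b),
    ENNReal.ofReal (ω (|u p.2 - u p.1| / |p.2 - p.1|) / |p.2 - p.1|)

/-- **Negative answer to Q1.**  There is a continuous `ω : [0,∞) → [0,∞)` with `ω 0 = 0`,
satisfying the positivity condition (P) and the integral condition (I), such that on every bounded
open interval `(a,b)` there is a measurable function `u`, not a.e. equal to a constant,
with `∫ |u|^α < ∞` for every `α ∈ (0,1)`, and with `F_ω(u,(a,b)) < ∞`. -/
theorem result :
    ∃ ω : ℝ → ℝ,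
      ContinuousOn ω (Ici 0) ∧ ω 0 = 0 ∧ (∀ μ : ℝ, 0 < μ → 0 < ω μ) ∧
      (∫⁻ μ in Ioi (1 : ℝ), ENNReal.ofReal (ω μ / μ ^ 2) = ⊤) ∧
      ∀ a b : ℝ, a < b →
        ∃ u : ℝ → ℝ, Measurable u ∧
          (¬ ∃ c : ℝ, ∀ᵐ x ∂(volume.restrict (Ioo a b)), u x = c) ∧
          (∀ α : ℝ, 0 < α → α < 1 →
            ∫⁻ x in Ioo a b, ENNReal.ofReal (|u x| ^ α) < ⊤) ∧
          nonlocalF ω u a b < ⊤ :=
  ⟨om, continuous_om.continuousOn, om_zero, fun _ h => om_pos h, om_integral,
    fun a b hab => ⟨ub a b, ub_measurable a b, ub_nonconst hab,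
      fun _ _ h1 => ub_integrable hab h1, ub_functional hab⟩⟩

end Pool.Agent.Results.MP_1dbcb3_an.SummableCounterexample
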